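import Pool.Agent.Helper8_HK.Stmt1

/-!
# Squad HK: digits of elements of the completion (tools for CMF)
-/

set_option autoImplicit false

namespace Pool.Agent.HK.H97

open Polynomial

variable {F : Type} [Field F]

theorem inO_mono {k l : ℤ} (h : k ≤ l) {x : Kinf F} (hx : InO l x) : InO k x :=
  fun i hi => hx i (lt_of_lt_of_le hi h)

theorem inO_add {k : ℤ} {x y : Kinf F} (hx : InO k x) (hy : InO k y) : InO k (x + y) :=
  fun i hi => by rw [HahnSeries.coeff_add, hx i hi, hy i hi, add_zero]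

theorem inO_neg {k : ℤ} {x : Kinf F} (hx : InO k x) : InO k (-x) :=
  fun i hi => by rw [HahnSeries.coeff_neg, hx i hi, neg_zero]

theorem inO_sub {k : ℤ} {x y : Kinf F} (hx : InO k x) (hy : InO k y) : InO k (x - y) := by
  rw [sub_eq_add_neg]; exact inO_add hx (inO_neg hy)

theorem inO_symm {k : ℤ} {x y : Kinf F} (hx : InO k (x - y)) : InO k (y - x) := by
  rw [← neg_sub]; exact inO_neg hx

theorem inO_trans {k : ℤ} {x y z : Kinf F} (hx : InO k (x - y)) (hy : InO k (y - z)) :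
    InO k (x - z) := by
  have : x - z = (x - y) + (y - z) := by ring
  rw [this]; exact inO_add hx hy

/-- the digits -/
noncomputable def dg (N : ℕ) (k : ℤ) (s : Fin N → F) : Kinf F :=
  ∑ j : Fin N, cst F (s j) * (unif F) ^ (k + (j : ℕ))

theorem inO_mul (hL : LAUStmt) {k l : ℤ} {x y : Kinf F} (hx : InO k x) (hy : InO l y) :
    InO (k + l) (x * y) := by
  obtain ⟨_, _, _, _, _, _, _, l8, _⟩ := hL F
  exact (l8 k l x y hx hy).1

theorem coeff_pow (hL : LAUStmt) (k i : ℤ) :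
    HahnSeries.coeff ((unif F) ^ k) i = if i = k then 1 else 0 := by
  obtain ⟨_, _, _, _, _, _, l7, _⟩ := hL F
  have h := l7 k i 1
  rw [mul_one] at h
  rw [h, HahnSeries.coeff_one]
  by_cases hi : i = k
  · rw [if_pos hi, if_pos (by omega)]
  · rw [if_neg hi, if_neg (by omega)]

theorem inO_pow (hL : LAUStmt) (k : ℤ) : InO k ((unif F) ^ k) := fun i hi => by
  rw [coeff_pow hL, if_neg (by omega)]

theorem inO_cst_pow (hL : LAUStmt) (c : F) (k : ℤ) : InO k (cst F c * (unif F) ^ k) :=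
  fun i hi => by
    obtain ⟨_, _, l3, _⟩ := hL F
    rw [l3, coeff_pow hL, if_neg (by omega), mul_zero]

theorem coeff_sum' {ι : Type} (s : Finset ι) (f : ι → Kinf F) (i : ℤ) :
    HahnSeries.coeff (∑ j ∈ s, f j) i = ∑ j ∈ s, HahnSeries.coeff (f j) i := by
  classical
  induction s using Finset.induction_on with
  | empty => simp
  | insert a s ha ih => rw [Finset.sum_insert ha, Finset.sum_insert ha, HahnSeries.coeff_add, ih]

theorem coeff_dg (hL : LAUStmt) (N : ℕ) (k : ℤ) (s : Fin N → F) (j : Fin N) :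
    HahnSeries.coeff (dg N k s) (k + (j : ℕ)) = s j := by
  obtain ⟨_, _, l3, _⟩ := hL F
  unfold dg
  rw [coeff_sum', Finset.sum_eq_single j]
  · rw [l3, coeff_pow hL, if_pos rfl, mul_one]
  · intro i _ hi
    rw [l3, coeff_pow hL, if_neg, mul_zero]
    intro h
    apply hi
    ext
    omega
  · intro h; exact absurd (Finset.mem_univ j) h

theorem inO_dg (hL : LAUStmt) (N : ℕ) (k : ℤ) (s : Fin N → F) : InO k (dg N k s) := by
  intro i hi
  unfold dg
  rw [coeff_sum']
  refine Finset.sum_eq_zero (fun j _ => ?_)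
  exact inO_cst_pow hL (s j) _ i (by have := j.2; omega)

/-- the digits of an element -/
def dig (N : ℕ) (k : ℤ) (x : Kinf F) : Fin N → F := fun j => HahnSeries.coeff x (k + (j : ℕ))

theorem inO_sub_dg (hL : LAUStmt) (N : ℕ) (k : ℤ) {x : Kinf F} (hx : InO k x) :
    InO (k + N) (x - dg N k (dig N k x)) := by
  intro i hi
  rw [HahnSeries.coeff_sub]
  by_cases h : i < k
  · rw [hx i h, inO_dg hL N k _ i h, sub_zero]
  · obtain ⟨j, hj⟩ : ∃ j : ℕ, i = k + (j : ℕ) := ⟨(i - k).toNat, by omega⟩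
    have hjN : j < N := by omega
    have h2 := coeff_dg hL N k (dig N k x) ⟨j, hjN⟩
    rw [hj]
    simp only at h2
    rw [h2]
    simp [dig]

theorem dg_inj (hL : LAUStmt) (N : ℕ) (k : ℤ) {s t : Fin N → F}
    (h : InO (k + N) (dg N k s - dg N k t)) : s = t := by
  funext j
  have h2 := h (k + (j : ℕ)) (by have := j.2; omega)
  rw [HahnSeries.coeff_sub, coeff_dg hL, coeff_dg hL] at h2
  exact sub_eq_zero.mp h2

theorem dig_dg (hL : LAUStmt) (N : ℕ) (k : ℤ) (s : Fin N → F) : dig N k (dg N k s) = s := by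
  funext j
  exact coeff_dg hL N k s j

/-! ### the polynomials -/

theorem emb_facts (hL : LAUStmt) {d : F[X]} (hd : d.Monic) :
    emb F d ≠ 0 ∧ InO (-(d.natDegree : ℤ)) (emb F d) ∧ InO (d.natDegree : ℤ) (emb F d)⁻¹ ∧
    ∃ u : Kinf F, emb F d = (unif F) ^ (-(d.natDegree : ℤ)) * u ∧ InO 0 u ∧
      HahnSeries.coeff u 0 = 1 := by
  obtain ⟨_, _, _, _, _, l6, _, _, _, l10, _, _, l13⟩ := hL F
  obtain ⟨u, hu, hu0, hu1⟩ := l13 d hd
  have hune : u ≠ 0 := by
    rintro rfl
    simp at hu1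
  have hne : emb F d ≠ 0 := by
    rw [hu]; exact mul_ne_zero (zpow_ne_zero _ l6) hune
  refine ⟨hne, ?_, ?_, u, hu, hu0, hu1⟩
  · rw [hu]
    have := inO_mul hL (inO_pow hL (-(d.natDegree : ℤ))) hu0
    rwa [add_zero] at this
  · have h2 := l10 u hu0 (by rw [hu1]; exact one_ne_zero)
    have h3 : (emb F d)⁻¹ = (unif F) ^ (d.natDegree : ℤ) * u⁻¹ := by
      rw [hu, mul_inv, ← zpow_neg, neg_neg]
    rw [h3]
    have := inO_mul hL (inO_pow hL (d.natDegree : ℤ)) h2.1
    rwa [add_zero] at this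

theorem inO_emb_iff (hL : LAUStmt) (b : F[X]) (N : ℕ) :
    InO (1 - (N : ℤ)) (emb F b) ↔ b.degree < N := by
  obtain ⟨l1, l2, _⟩ := hL F
  rw [Polynomial.degree_lt_iff_coeff_zero]
  constructor
  · intro h m hm
    have := h (-(m : ℤ)) (by omega)
    rwa [l1] at this
  · intro h i hi
    by_cases h0 : 0 < i
    · exact l2 b i h0
    · obtain ⟨j, hj⟩ : ∃ j : ℕ, i = -(j : ℤ) := ⟨(-i).toNat, by omega⟩
      rw [hj, l1]
      exact h j (by omega)

theorem emb_coeff_one (hL : LAUStmt) (b : F[X]) : HahnSeries.coeff (emb F b) 1 = 0 := by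
  obtain ⟨_, l2, _⟩ := hL F
  exact l2 b 1 one_pos

/-- The polynomial part of `emb d * y` for `y` in the maximal ideal. -/
theorem exists_part (hL : LAUStmt) {d : F[X]} (hd : d.Monic) {y : Kinf F} (hy : InO 1 y) :
    ∃ b : F[X], b.degree < d.degree ∧ InO 1 (emb F d * y - emb F b) := by
  obtain ⟨_, _, _, _, _, _, _, _, _, _, l11, _⟩ := hL F
  obtain ⟨hne, h1, _⟩ := emb_facts hL hd
  obtain ⟨b, hb⟩ := l11 (emb F d * y)
  refine ⟨b, ?_, hb⟩
  rw [Polynomial.degree_eq_natDegree hd.ne_zero, ← inO_emb_iff hL]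
  have h2 : InO (1 - (d.natDegree : ℤ)) (emb F d * y) := by
    have := inO_mul hL h1 hy
    rwa [show -(d.natDegree : ℤ) + 1 = 1 - (d.natDegree : ℤ) by ring] at this
  have h3 : emb F b = emb F d * y - (emb F d * y - emb F b) := by ring
  rw [h3]
  exact inO_sub h2 (inO_mono (by omega) hb)

/-- dividing by a monic polynomial -/
theorem inO_div (hL : LAUStmt) {d : F[X]} (hd : d.Monic) {k : ℤ} {y : Kinf F} (hy : InO k y) :
    InO (k + d.natDegree) (y / emb F d) := by
  rw [div_eq_mul_inv]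
  exact inO_mul hL hy (emb_facts hL hd).2.2.1

theorem emb_inj_of_inO (hL : LAUStmt) {a b : F[X]} (h : InO 1 (emb F a - emb F b)) : a = b := by
  obtain ⟨_, _, _, _, _, _, _, _, _, _, _, l12, _⟩ := hL F
  rw [← map_sub] at h
  exact sub_eq_zero.mp (l12 _ h)

end Pool.Agent.HK.H97
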