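import Pool.Agent.Helper97_HK.Dig

/-!
# Squad HK, module CMF: the coefficient `c_m`, `deg m ≤ 3`
-/

set_option autoImplicit false
set_option linter.unusedSectionVars false

namespace Pool.Agent.HK.H97

open Polynomial

variable {F : Type} [Field F]

/-- Sum over the polynomials of degree less than `deg d` of a function depending only on
finitely many digits. -/
theorem sum_poly [Fintype F] {R : Type} [AddCommGroup R] (hL : LAUStmt) {d : F[X]}
    (hd : d.Monic) (f : Kinf F → R)
    (hf : ∀ u v : Kinf F, InO (1 + (d.natDegree : ℤ)) (u - v) → f u = f v) (w : Kinf F)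
    (S : Finset F[X]) (hS : ∀ b, b ∈ S ↔ b.degree < d.degree) :
    ∑ b ∈ S, f (w + emb F b / emb F d) =
      ∑ s : Fin d.natDegree → F, f (w + dg d.natDegree 1 s) := by
  have hne := (emb_facts hL hd).1
  have hdeg := Polynomial.degree_eq_natDegree hd.ne_zero
  have hO : ∀ b ∈ S, InO 1 (emb F b / emb F d) := fun b hb => by
    have h1 : InO (1 - (d.natDegree : ℤ)) (emb F b) := by
      rw [inO_emb_iff hL, ← hdeg]; exact (hS b).mp hb
    have := inO_div hL hd h1
    rwa [show (1 - (d.natDegree : ℤ)) + d.natDegree = 1 by ring] at this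
  refine Finset.sum_bij (fun b _ => dig d.natDegree 1 (emb F b / emb F d)) ?_ ?_ ?_ ?_
  · intro b _; exact Finset.mem_univ _
  · intro b hb b' hb' h
    have h1 := inO_sub_dg hL d.natDegree 1 (hO b hb)
    have h2 := inO_sub_dg hL d.natDegree 1 (hO b' hb')
    rw [← h] at h2
    have h3 := inO_trans h1 (inO_symm h2)
    have h4 := inO_mul hL (emb_facts hL hd).2.1 h3
    have h5 : emb F d * (emb F b / emb F d - emb F b' / emb F d) = emb F b - emb F b' := by
      field_simp
    rw [h5] at h4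
    exact emb_inj_of_inO hL (inO_mono (by omega) h4)
  · intro s _
    obtain ⟨b, hb, hb2⟩ := exists_part hL hd (inO_dg hL d.natDegree 1 s)
    have hbS := (hS b).mpr hb
    refine ⟨b, hbS, ?_⟩
    have h1 := inO_sub_dg hL d.natDegree 1 (hO b hbS)
    have h2 : InO (1 + (d.natDegree : ℤ)) (dg d.natDegree 1 s - emb F b / emb F d) := by
      have h3 := inO_div hL hd hb2
      have h4 : (emb F d * dg d.natDegree 1 s - emb F b) / emb F d =
          dg d.natDegree 1 s - emb F b / emb F d := by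
        field_simp
      rwa [h4] at h3
    exact (dg_inj hL d.natDegree 1 (inO_trans h2 h1)).symm
  · intro b hb
    apply hf
    have h1 := inO_sub_dg hL d.natDegree 1 (hO b hb)
    have h2 : w + emb F b / emb F d - (w + dg d.natDegree 1 (dig d.natDegree 1 (emb F b / emb F d)))
        = emb F b / emb F d - dg d.natDegree 1 (dig d.natDegree 1 (emb F b / emb F d)) := by ring
    rw [h2]; exact h1

theorem dg_append (K M : ℕ) (k : ℤ) (s : Fin K → F) (t : Fin M → F) :
    dg (K + M) k (Fin.append s t) = dg K k s + dg M (k + K) t := by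
  unfold dg
  rw [Fin.sum_univ_add]
  congr 1
  · refine Finset.sum_congr rfl (fun j _ => ?_)
    rw [Fin.append_left]; rfl
  · refine Finset.sum_congr rfl (fun j _ => ?_)
    rw [Fin.append_right]
    congr 2
    simp only [Fin.val_natAdd]
    push_cast
    ring

section Harm

variable [Fintype F] {R : Type} [AddCommGroup R] {n : F[X]} {φ : GLK F → R}

/-- All the facts on the values. -/
theorem val_facts (hV : VALStmt) (hφ : IsHarm φ) (hn : Invt n φ) (h0 : val φ 1 0 = 0) :
    (∀ (k : ℤ) (u v : Kinf F), InO k (u - v) → val φ k u = val φ k v) ∧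
    (∀ (a b d : Kinf F) (k : ℤ) (e : Kinf F), d ≠ 0 → a / d = (unif F) ^ k * e →
      InO 0 e → HahnSeries.coeff e 0 ≠ 0 → φ (mat a b 0 d) = val φ k (b / d)) ∧
    (∀ (k : ℤ) (N : ℕ) (u : Kinf F),
      ∑ s : Fin N → F, val φ (k + N) (u + dg N k s) = val φ k u) ∧
    (∀ (k : ℤ) (u : Kinf F), k ≤ 1 → val φ k u = 0) := by
  obtain ⟨v1, v2, _, v4, _, _, v7⟩ := hV F R φ hφ
  obtain ⟨_, _, v73, v74⟩ := v7 n hn
  refine ⟨?_, ?_, ?_, ?_⟩
  · intro k u v h
    have := v1 1 k u v h
    rwa [one_mul, one_mul] at this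
  · intro a b d k e hd he h1 h2
    have := v2 1 a b d k e hd he h1 h2
    rwa [one_mul, one_mul] at this
  · intro k N u
    have := v4 1 k N u
    simp only [one_mul] at this
    exact this
  · intro k u hk
    rw [v73 k u hk]
    have := v74 (1 - k).toNat
    rw [show (1 : ℤ) - ((1 - k).toNat : ℤ) = k by omega] at this
    rw [this, h0, smul_zero]

theorem sum_val_zero (hV : VALStmt) (hφ : IsHarm φ) (hn : Invt n φ) (h0 : val φ 1 0 = 0)
    (K M : ℕ) (w : Kinf F) :
    ∑ s : Fin (K + M) → F, val φ (1 + K) (w + dg (K + M) 1 s) = 0 := by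
  obtain ⟨_, _, f3, f4⟩ := val_facts hV hφ hn h0
  rw [← (Fin.appendEquiv K M).sum_comp, Fintype.sum_prod_type_right]
  refine Finset.sum_eq_zero (fun t _ => ?_)
  have h := f3 1 K (w + dg M (1 + K) t)
  rw [f4 1 _ le_rfl] at h
  rw [← h]
  refine Finset.sum_congr rfl (fun s _ => ?_)
  congr 1
  have h2 : (Fin.appendEquiv K M) (s, t) = Fin.append s t := rfl
  rw [h2, dg_append]
  ring

theorem coeff_unif_one (hL : LAUStmt) : HahnSeries.coeff (unif F) 1 = 1 := by
  have := coeff_pow (F := F) hL 1 1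
  rwa [zpow_one, if_pos rfl] at this

theorem inO_unif (hL : LAUStmt) : InO 1 (unif F) := by
  have := inO_pow (F := F) hL 1
  rwa [zpow_one] at this

/-- the element attached to `(b, t)` -/
noncomputable def ub (m : F[X]) (p : F[X] × (Fin (3 - m.natDegree) → F)) : Kinf F :=
  (unif F + emb F p.1) / emb F m + dg (3 - m.natDegree) (2 + (m.natDegree : ℤ)) p.2

theorem mul_ub (hL : LAUStmt) {m : F[X]} (hm : m.Monic) (p : F[X] × (Fin (3 - m.natDegree) → F)) :
    emb F m * ub m p = unif F + emb F p.1 +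
      emb F m * dg (3 - m.natDegree) (2 + (m.natDegree : ℤ)) p.2 := by
  have hne := (emb_facts hL hm).1
  unfold ub
  field_simp

theorem inO_mul_dg (hL : LAUStmt) {m : F[X]} (hm : m.Monic) (t : Fin (3 - m.natDegree) → F) :
    InO 2 (emb F m * dg (3 - m.natDegree) (2 + (m.natDegree : ℤ)) t) := by
  have := inO_mul hL (emb_facts hL hm).2.1
    (inO_dg hL (3 - m.natDegree) (2 + (m.natDegree : ℤ)) t)
  rwa [show -(m.natDegree : ℤ) + (2 + (m.natDegree : ℤ)) = 2 by ring] at this

theorem inO_ub (hL : LAUStmt) {m : F[X]} (hm : m.Monic) (p : F[X] × (Fin (3 - m.natDegree) → F))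
    (hb : p.1.degree < m.degree) : InO 1 (ub m p) := by
  unfold ub
  refine inO_add ?_ (inO_mono (by omega) (inO_dg hL _ _ _))
  have h1 : InO (1 - (m.natDegree : ℤ)) (unif F + emb F p.1) := by
    refine inO_add (inO_mono (by omega) (inO_unif hL)) ?_
    rw [inO_emb_iff hL, ← Polynomial.degree_eq_natDegree hm.ne_zero]
    exact hb
  have := inO_div hL hm h1
  rwa [show (1 - (m.natDegree : ℤ)) + m.natDegree = 1 by ring] at this

theorem main_fibre (hL : LAUStmt) (hV : VALStmt) (hφ : IsHarm φ) (hn : Invt n φ)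
    (h0 : val φ 1 0 = 0) [DecidableEq F] {m : F[X]} (hm : m.Monic) (hm3 : m.natDegree ≤ 3)
    (S : Finset F[X]) (hS : ∀ b, b ∈ S ↔ b.degree < m.degree) :
    ∑ b ∈ S, val φ (2 + (m.natDegree : ℤ)) ((unif F + emb F b) / emb F m) =
      ∑ s : Fin 4 → F, if HahnSeries.coeff (emb F m * dg 4 1 s) 1 = 1
        then val φ 5 (dg 4 1 s) else 0 := by
  classical
  obtain ⟨f1, _, f3, _⟩ := val_facts hV hφ hn h0
  have hne := (emb_facts hL hm).1
  have hmO := (emb_facts hL hm).2.1
  rw [← Finset.sum_filter]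
  have e1 : ∀ b ∈ S, val φ (2 + (m.natDegree : ℤ)) ((unif F + emb F b) / emb F m) =
      ∑ t : Fin (3 - m.natDegree) → F, val φ 5 (ub m (b, t)) := fun b _ => by
    rw [← f3 (2 + (m.natDegree : ℤ)) (3 - m.natDegree)]
    rw [show (2 + (m.natDegree : ℤ)) + ((3 - m.natDegree : ℕ) : ℤ) = 5 by omega]
    rfl
  rw [Finset.sum_congr rfl e1, ← Finset.sum_product']
  refine Finset.sum_bij (fun p _ => dig 4 1 (ub m p)) ?_ ?_ ?_ ?_
  · intro p hp
    have hb := (hS p.1).mp (Finset.mem_product.mp hp).1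
    rw [Finset.mem_filter]
    refine ⟨Finset.mem_univ _, ?_⟩
    have h1 := inO_sub_dg hL 4 1 (inO_ub hL hm p hb)
    have h2 := inO_mul hL hmO h1
    have h3 : emb F m * dg 4 1 (dig 4 1 (ub m p)) =
        unif F + emb F p.1 + emb F m * dg (3 - m.natDegree) (2 + (m.natDegree : ℤ)) p.2
        - emb F m * (ub m p - dg 4 1 (dig 4 1 (ub m p))) := by
      rw [← mul_ub hL hm p]; ring
    rw [h3, HahnSeries.coeff_sub, HahnSeries.coeff_add, HahnSeries.coeff_add, coeff_unif_one hL,
      emb_coeff_one hL, inO_mul_dg hL hm p.2 1 (by norm_num), h2 1 (by push_cast; omega)]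
    ring
  · intro p hp p' hp' h
    have hb := (hS p.1).mp (Finset.mem_product.mp hp).1
    have hb' := (hS p'.1).mp (Finset.mem_product.mp hp').1
    have h1 := inO_sub_dg hL 4 1 (inO_ub hL hm p hb)
    have h2 := inO_sub_dg hL 4 1 (inO_ub hL hm p' hb')
    rw [← h] at h2
    have h3 : InO (1 + ((4 : ℕ) : ℤ)) (ub m p - ub m p') := inO_trans h1 (inO_symm h2)
    have h4 := inO_mul hL hmO h3
    rw [mul_sub, mul_ub hL hm, mul_ub hL hm] at h4
    have h5 : emb F p.1 - emb F p'.1 = (unif F + emb F p.1 +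
        emb F m * dg (3 - m.natDegree) (2 + (m.natDegree : ℤ)) p.2 - (unif F + emb F p'.1 +
        emb F m * dg (3 - m.natDegree) (2 + (m.natDegree : ℤ)) p'.2))
        - (emb F m * dg (3 - m.natDegree) (2 + (m.natDegree : ℤ)) p.2 -
          emb F m * dg (3 - m.natDegree) (2 + (m.natDegree : ℤ)) p'.2) := by ring
    have h6 : InO 1 (emb F p.1 - emb F p'.1) := by
      rw [h5]
      refine inO_sub (inO_mono (by push_cast; omega) h4) (inO_mono (by omega)
        (inO_sub (inO_mul_dg hL hm p.2) (inO_mul_dg hL hm p'.2)))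
    have h7 : p.1 = p'.1 := emb_inj_of_inO hL h6
    have h8 : ub m p - ub m p' = dg (3 - m.natDegree) (2 + (m.natDegree : ℤ)) p.2 -
        dg (3 - m.natDegree) (2 + (m.natDegree : ℤ)) p'.2 := by
      unfold ub; rw [h7]; ring
    rw [h8] at h3
    have h9 : p.2 = p'.2 := by
      refine dg_inj hL (3 - m.natDegree) (2 + (m.natDegree : ℤ)) (inO_mono ?_ h3)
      push_cast
      omega
    exact Prod.ext h7 h9
  · intro s hs
    have hs1 := (Finset.mem_filter.mp hs).2
    obtain ⟨b, hb, hb2⟩ := exists_part hL hm (inO_dg hL 4 1 s)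
    have h1 : InO 2 (emb F m * dg 4 1 s - emb F b - unif F) := by
      intro i hi
      by_cases h : i < 1
      · rw [HahnSeries.coeff_sub, hb2 i h, inO_unif hL i h, sub_zero]
      · have : i = 1 := by omega
        rw [this, HahnSeries.coeff_sub, HahnSeries.coeff_sub, hs1, emb_coeff_one hL,
          coeff_unif_one hL]
        ring
    have h2 := inO_div hL hm h1
    have h3 : (emb F m * dg 4 1 s - emb F b - unif F) / emb F m =
        dg 4 1 s - (unif F + emb F b) / emb F m := by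
      field_simp
      ring
    rw [h3] at h2
    have h4 := inO_sub_dg hL (3 - m.natDegree) (2 + (m.natDegree : ℤ)) h2
    set t := dig (3 - m.natDegree) (2 + (m.natDegree : ℤ))
      (dg 4 1 s - (unif F + emb F b) / emb F m) with ht
    have h5 : InO (1 + ((4 : ℕ) : ℤ)) (dg 4 1 s - ub m (b, t)) := by
      have h6 : dg 4 1 s - ub m (b, t) = dg 4 1 s - (unif F + emb F b) / emb F m -
          dg (3 - m.natDegree) (2 + (m.natDegree : ℤ)) t := by
        unfold ub; ring
      rw [h6]
      refine inO_mono ?_ h4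
      push_cast
      omega
    refine ⟨(b, t), Finset.mem_product.mpr ⟨(hS b).mpr hb, Finset.mem_univ _⟩, ?_⟩
    have h7 := inO_sub_dg hL 4 1 (inO_ub hL hm (b, t) hb)
    exact (dg_inj hL 4 1 (inO_trans h5 h7)).symm
  · intro p hp
    have hb := (hS p.1).mp (Finset.mem_product.mp hp).1
    apply f1
    have := inO_sub_dg hL 4 1 (inO_ub hL hm p hb)
    rwa [show (1 : ℤ) + ((4 : ℕ) : ℤ) = 5 by norm_num] at this

/-- the value of one term of the Hecke operator -/
theorem term_val (hL : LAUStmt) (hM : MTXStmt) (hV : VALStmt) (hφ : IsHarm φ) (hn : Invt n φ)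
    (h0 : val φ 1 0 = 0) {a d : F[X]} (b : F[X]) (ha : a.Monic) (hd : d.Monic) :
    φ (hmat (a, b, d) * mat ((unif F) ^ (2 : ℤ)) (unif F) 0 1) =
      val φ (2 + (d.natDegree : ℤ) - a.natDegree)
        ((emb F a * unif F + emb F b) / emb F d) := by
  obtain ⟨_, f2, _, _⟩ := val_facts hV hφ hn h0
  obtain ⟨_, _, _, _, _, l6, _, _, _, l10, _⟩ := hL F
  obtain ⟨_, _, m3, _⟩ := hM F
  obtain ⟨hane, _, _, ua, hua, hua0, hua1⟩ := emb_facts hL ha
  obtain ⟨hdne, _, _, ud, hud, hud0, hud1⟩ := emb_facts hL hd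
  unfold hmat
  simp only
  rw [m3 (emb F a) (emb F b) 0 (emb F d) _ _ 0 1 (by simpa using ⟨hane, hdne⟩)
    (by simpa using l6)]
  simp only [mul_zero, zero_mul, add_zero, zero_add, mul_one]
  have hudne : ud ≠ 0 := by rintro rfl; simp at hud1
  have hinv := l10 ud hud0 (by rw [hud1]; exact one_ne_zero)
  refine f2 _ _ _ _ (ua * ud⁻¹) hdne ?_ ?_ ?_
  · rw [hua, hud, div_eq_mul_inv, mul_inv, ← zpow_neg, neg_neg]
    have e1 : (unif F) ^ (2 + (d.natDegree : ℤ) - a.natDegree) =
        (unif F) ^ (-(a.natDegree : ℤ)) * (unif F) ^ (2 : ℤ) * (unif F) ^ (d.natDegree : ℤ) := by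
      rw [← zpow_add₀ l6, ← zpow_add₀ l6]
      congr 1
      ring
    rw [e1]
    ring
  · have := inO_mul hL hua0 hinv.1
    rwa [add_zero] at this
  · obtain ⟨_, _, _, _, _, _, _, l8, _⟩ := hL F
    have := (l8 0 0 ua ud⁻¹ hua0 hinv.1).2
    rw [add_zero] at this
    rw [this, hua1, hinv.2, hud1]
    simp

/-- a fibre with `a ≠ 1` contributes nothing -/
theorem other_fibre (hL : LAUStmt) (hV : VALStmt) (hφ : IsHarm φ) (hn : Invt n φ)
    (h0 : val φ 1 0 = 0) {a d : F[X]} (hd : d.Monic) (ha1 : 1 ≤ a.natDegree)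
    (S : Finset F[X]) (hS : ∀ b, b ∈ S ↔ b.degree < d.degree) :
    ∑ b ∈ S, val φ (2 + (d.natDegree : ℤ) - a.natDegree)
      ((emb F a * unif F + emb F b) / emb F d) = 0 := by
  obtain ⟨f1, _, _, f4⟩ := val_facts hV hφ hn h0
  by_cases hk : 2 + (d.natDegree : ℤ) - a.natDegree ≤ 1
  · exact Finset.sum_eq_zero (fun b _ => f4 _ _ hk)
  · rw [not_le] at hk
    obtain ⟨K, hK⟩ : ∃ K : ℕ, 2 + (d.natDegree : ℤ) - a.natDegree = 1 + K :=
      ⟨d.natDegree + 1 - a.natDegree, by omega⟩
    have hle : K ≤ d.natDegree := by omega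
    obtain ⟨M, hM⟩ := Nat.exists_eq_add_of_le hle
    have e1 : ∀ b ∈ S, val φ (2 + (d.natDegree : ℤ) - a.natDegree)
        ((emb F a * unif F + emb F b) / emb F d) =
        val φ (1 + K) (emb F a * unif F / emb F d + emb F b / emb F d) := fun b _ => by
      rw [hK, add_div]
    rw [Finset.sum_congr rfl e1]
    have h1 := sum_poly hL hd (fun u => val φ (1 + K) u)
      (fun u v huv => f1 _ u v (inO_mono (by omega) huv)) (emb F a * unif F / emb F d) S hS
    rw [h1]
    have h2 := sum_val_zero hV hφ hn h0 K M (emb F a * unif F / emb F d)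
    rw [← hM] at h2
    exact h2

end Harm

theorem dg_nat (s : Fin 4 → F) :
    (∑ j : Fin 4, cst F (s j) * (unif F) ^ (1 + (j : ℕ))) = dg 4 1 s := by
  unfold dg
  refine Finset.sum_congr rfl (fun j _ => ?_)
  congr 1

theorem cmf (hVAL : VALStmt) (hLAU : LAUStmt) (hMTX : MTXStmt) (hHPM : HPMStmt) : CMFStmt := by
  intro F _ _ _ R _ n m hn0 hm hm3 φ hφ hn h0
  classical
  have hfin := (hHPM F n m hn0 hm).1
  simp only [dg_nat]
  have e0 : val (hecke n m φ) 2 (unif F) = ∑ x ∈ hfin.toFinset,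
      φ (hmat x * mat ((unif F) ^ (2 : ℤ)) (unif F) 0 1) := by
    unfold val hecke
    rw [finsum_mem_eq_finite_toFinset_sum _ hfin]
  have hmem : ∀ x, x ∈ hfin.toFinset ↔ x.1.Monic ∧ x.2.2.Monic ∧ x.1 * x.2.2 = m ∧
      IsCoprime x.1 n ∧ x.2.1.degree < x.2.2.degree := fun x => by
    rw [Set.Finite.mem_toFinset]; rfl
  rw [e0]
  -- one fibre
  have key : ∀ (a d : F[X]), a.Monic → d.Monic → a * d = m → IsCoprime a n →
      ∃ S : Finset F[X], (∀ b, b ∈ S ↔ b.degree < d.degree) ∧
      ∑ x ∈ hfin.toFinset.filter (fun x => x.1 = a),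
        φ (hmat x * mat ((unif F) ^ (2 : ℤ)) (unif F) 0 1) =
      ∑ b ∈ S, val φ (2 + (d.natDegree : ℤ) - a.natDegree)
        ((emb F a * unif F + emb F b) / emb F d) := by
    intro a d ha hd had hc
    have hd' : ∀ x ∈ hfin.toFinset.filter (fun x => x.1 = a), x.1 = a ∧ x.2.2 = d := by
      intro x hx
      rw [Finset.mem_filter, hmem] at hx
      refine ⟨hx.2, ?_⟩
      have h1 := hx.1.2.2.1
      rw [hx.2, ← had] at h1
      exact mul_left_cancel₀ ha.ne_zero h1
    refine ⟨(hfin.toFinset.filter (fun x => x.1 = a)).image (fun x => x.2.1), ?_, ?_⟩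
    · intro b
      rw [Finset.mem_image]
      constructor
      · rintro ⟨x, hx, rfl⟩
        have h1 := hd' x hx
        rw [Finset.mem_filter, hmem] at hx
        rw [← h1.2]
        exact hx.1.2.2.2.2
      · intro hb
        refine ⟨(a, b, d), ?_, rfl⟩
        rw [Finset.mem_filter, hmem]
        exact ⟨⟨ha, hd, had, hc, hb⟩, rfl⟩
    · rw [Finset.sum_image]
      · refine Finset.sum_congr rfl (fun x hx => ?_)
        have h1 := hd' x hx
        have h2 : x = (a, x.2.1, d) := Prod.ext h1.1 (Prod.ext rfl h1.2)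
        rw [h2]
        exact term_val hLAU hMTX hVAL hφ hn h0 x.2.1 ha hd
      · intro x hx y hy hxy
        have h1 := hd' x hx
        have h2 := hd' y hy
        exact Prod.ext (h1.1.trans h2.1.symm) (Prod.ext hxy (h1.2.trans h2.2.symm))
  rw [← Finset.sum_fiberwise_of_maps_to (s := hfin.toFinset)
    (t := hfin.toFinset.image (fun x => x.1)) (g := fun x => x.1)
    (fun x hx => Finset.mem_image_of_mem _ hx)]
  rw [Finset.sum_eq_single (1 : F[X])]
  · obtain ⟨S, hS, hS2⟩ := key 1 m Polynomial.monic_one hm (one_mul m) isCoprime_one_left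
    rw [hS2]
    have h3 := main_fibre hLAU hVAL hφ hn h0 hm hm3 S hS
    rw [← h3]
    refine Finset.sum_congr rfl (fun b _ => ?_)
    rw [Polynomial.natDegree_one, map_one, one_mul]
    norm_num
  · intro a ha ha1
    obtain ⟨x, hx, rfl⟩ := Finset.mem_image.mp ha
    rw [hmem] at hx
    obtain ⟨S, hS, hS2⟩ := key x.1 x.2.2 hx.1 hx.2.1 hx.2.2.1 hx.2.2.2.1
    rw [hS2]
    refine other_fibre hLAU hVAL hφ hn h0 hx.2.1 ?_ S hS
    by_contra h
    apply ha1
    have h4 : x.1.natDegree = 0 := by omega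
    exact hx.1.natDegree_eq_zero.mp h4
  · intro h
    refine Finset.sum_eq_zero (fun x hx => ?_)
    exfalso
    apply h
    rw [Finset.mem_filter] at hx
    exact Finset.mem_image.mpr ⟨x, hx.1, hx.2⟩

end Pool.Agent.HK.H97
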