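import Pool.Agent.Helper8_HK.Stmt1

/-!
# Squad HK, module HWD: Hecke operators preserve harmonic invariant cochains
-/

set_option autoImplicit false

namespace Pool.Agent.HK.H97

open Polynomial

theorem hecke_eq_sum {F : Type} [Field F] {R : Type} [AddCommGroup R] {n m : F[X]}
    (hfin : (HIdx n m).Finite) (φ : GLK F → R) (g : GLK F) :
    hecke n m φ g = ∑ x ∈ hfin.toFinset, φ (hmat x * g) := by
  unfold hecke
  rw [finsum_mem_eq_finite_toFinset_sum _ hfin]

theorem hwd (hHPM : HPMStmt) (hVAL : VALStmt) (_hMTX : MTXStmt) : HWDStmt := by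
  intro F _ _ R _ n m hn hm φ hφ hi
  obtain ⟨hfin, hperm, _⟩ := hHPM F n m hn hm
  obtain ⟨_, _, _, _, v5, _⟩ := hVAL F R φ hφ
  refine ⟨⟨fun g z k hz hk => ?_, fun g => ?_, fun g => ?_⟩, fun γ hγ g => ?_⟩
  · rw [hecke_eq_sum hfin, hecke_eq_sum hfin]
    exact Finset.sum_congr rfl (fun x _ => (v5 (hmat x)).inv g z k hz hk)
  · rw [hecke_eq_sum hfin, hecke_eq_sum hfin, ← Finset.sum_neg_distrib]
    exact Finset.sum_congr rfl (fun x _ => (v5 (hmat x)).rev g)
  · simp only [hecke_eq_sum hfin]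
    rw [Finset.sum_comm, ← Finset.sum_add_distrib]
    exact Finset.sum_eq_zero (fun x _ => (v5 (hmat x)).sum g)
  · obtain ⟨e, he⟩ := hperm γ hγ
    unfold hecke
    rw [← finsum_set_coe_eq_finsum_mem, ← finsum_set_coe_eq_finsum_mem]
    refine Eq.trans ?_ (finsum_comp_equiv e
      (f := fun x : HIdx n m => φ (hmat (x : F[X] × F[X] × F[X]) * g)))
    refine finsum_congr (fun x => ?_)
    obtain ⟨δ, hδ, h⟩ := he x
    rw [← mul_assoc, h, mul_assoc, hi δ hδ]

end Pool.Agent.HK.H97
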