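import Pool.Agent.Helper8_HK.Stmt1

/-!
# Squad HK, module PPZ: the pairing over the integers is perfect
-/

set_option autoImplicit false
set_option linter.unusedSectionVars false

namespace Pool.Agent.HK.H97

open Polynomial

variable {F : Type} [Field F] [Fintype F]

theorem hidx_finite (n : F[X]) {m : F[X]} (_hm : m.Monic) : (HIdx n m).Finite := by
  let e : (Fin (m.natDegree + 1) → F) → F[X] := fun s => ∑ i, C (s i) * X ^ (i : ℕ)
  have hS : (Set.range e).Finite := Set.finite_range e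
  have hmem : ∀ p : F[X], p.natDegree < m.natDegree + 1 → p ∈ Set.range e := fun p hp => by
    refine ⟨fun i => p.coeff i, ?_⟩
    change (∑ i : Fin (m.natDegree + 1), C (p.coeff (i : ℕ)) * X ^ (i : ℕ)) = p
    rw [Fin.sum_univ_eq_sum_range (fun i => C (p.coeff i) * X ^ i) (m.natDegree + 1)]
    exact (Polynomial.as_sum_range_C_mul_X_pow' p hp).symm
  refine (hS.prod (hS.prod hS)).subset ?_
  rintro ⟨a, b, d⟩ ⟨ha, hd, had, _, hb⟩
  simp only at ha hd had hb
  have h1 : m.natDegree = a.natDegree + d.natDegree := by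
    rw [← had, ha.natDegree_mul hd]
  have h2 : b.natDegree ≤ d.natDegree := Polynomial.natDegree_le_natDegree hb.le
  exact ⟨hmem a (by omega), hmem b (by omega), hmem d (by omega)⟩

theorem hecke_sum {R : Type} [AddCommGroup R] (n : F[X]) {m : F[X]} (hm : m.Monic)
    (φ : GLK F → R) (g : GLK F) :
    hecke n m φ g = ∑ x ∈ (hidx_finite n hm).toFinset, φ (hmat x * g) := by
  unfold hecke
  rw [finsum_mem_eq_finite_toFinset_sum _ (hidx_finite n hm)]

/-- The Hecke operator as an endomorphism. -/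
noncomputable def TT (n : F[X]) {m : F[X]} (hm : m.Monic)
    (hst : ∀ φ ∈ harm0 n, hecke n m φ ∈ harm0 n) : Module.End ℤ (harm0 n) where
  toFun φ := ⟨hecke n m (φ : GLK F → ℤ), hst _ φ.2⟩
  map_add' φ ψ := by
    apply Subtype.ext
    funext g
    simp only [Submodule.coe_add, Pi.add_apply, hecke_sum n hm, Finset.sum_add_distrib]
  map_smul' c φ := by
    apply Subtype.ext
    funext g
    simp only [Submodule.coe_smul, Pi.smul_apply, hecke_sum n hm, RingHom.id_apply,
      Finset.smul_sum]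

section Cast

variable {R : Type} [AddCommGroup R] (f : ℤ →+ R) {φ : GLK F → ℤ}

theorem harm_cast (h : IsHarm φ) : IsHarm (fun g => f (φ g)) where
  inv g z k hz hk := by simp only [h.inv g z k hz hk]
  rev g := by simp only [h.rev g, map_neg]
  sum g := by
    have := congrArg f (h.sum g)
    rw [map_add, map_sum, map_zero] at this
    exact this

theorem cusp_cast {n : F[X]} (h : Cusp n φ) : Cusp n (fun g => f (φ g)) where
  harm := harm_cast f h.harm
  invt γ hγ g := by simp only [h.invt γ hγ g]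
  rinf := by
    have := congrArg f h.rinf
    rwa [map_zero] at this
  rzero := by
    have := congrArg f h.rzero
    rwa [map_zero] at this

theorem hecke_cast (n : F[X]) {m : F[X]} (hm : m.Monic) (g : GLK F) :
    hecke n m (fun g => f (φ g)) g = f (hecke n m φ g) := by
  rw [hecke_sum n hm, hecke_sum n hm, map_sum]

end Cast

/-- cuspidality of the members of `harm0` -/
theorem cusp_of_mem (hCSP : CSPStmt) {n : F[X]} (hn : n.Monic) (hi : Irreducible n)
    {φ : GLK F → ℤ} (h : φ ∈ harm0 n) : Cusp n φ := by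
  obtain ⟨h1, h2, h3⟩ := h
  have h4 := (hCSP F n hn hi φ h1 h2).mp h3
  exact ⟨h1, h2, h4.1, h4.2⟩

theorem mem_of_cusp (hCSP : CSPStmt) {n : F[X]} (hn : n.Monic) (hi : Irreducible n)
    {φ : GLK F → ℤ} (h : Cusp n φ) : φ ∈ harm0 n :=
  ⟨h.harm, h.invt, (hCSP F n hn hi φ h.harm h.invt).mpr ⟨h.rinf, h.rzero⟩⟩

theorem stable (hCSP : CSPStmt) (hHST : HSTStmt) {n : F[X]} (hn : n.Monic) (hi : Irreducible n)
    {m : F[X]} (hm : m.Monic) : ∀ φ ∈ harm0 n, hecke n m φ ∈ harm0 n := fun φ hφ =>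
  mem_of_cusp hCSP hn hi (hHST F ℤ n m hn hi hm φ (cusp_of_mem hCSP hn hi hφ))

/-- over a field: all coefficients zero implies zero -/
theorem zero_of_coeff (hCORE : COREStmt) {n : F[X]} (hn : n.Monic) (hi : Irreducible n)
    (h4 : n.natDegree = 4) (k : Type) [Field k] (f : ℤ →+ k) {φ : GLK F → ℤ} (hφ : Cusp n φ)
    (h : ∀ m : F[X], m.Monic → f (val (hecke n m φ) 2 (unif F)) = 0) :
    ∀ g, f (φ g) = 0 := by
  refine hCORE F k n hn hi h4 (fun g => f (φ g)) (cusp_cast f hφ) (fun m hm _ => ?_)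
  have := h m hm
  unfold val at this ⊢
  rw [hecke_cast f n hm]
  exact this

theorem eq_zero_of_coeff (hCORE : COREStmt) {n : F[X]} (hn : n.Monic) (hi : Irreducible n)
    (h4 : n.natDegree = 4) {φ : GLK F → ℤ} (hφ : Cusp n φ)
    (h : ∀ m : F[X], m.Monic → val (hecke n m φ) 2 (unif F) = 0) : φ = 0 := by
  have := zero_of_coeff hCORE hn hi h4 ℚ (Int.castAddHom ℚ) hφ (fun m hm => by
    rw [h m hm, map_zero])
  funext g
  have h2 := this g
  simpa using h2

theorem div_of_coeff (hCORE : COREStmt) (hCSP : CSPStmt) {n : F[X]} (hn : n.Monic)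
    (hi : Irreducible n) (h4 : n.natDegree = 4) (l : ℕ) (hl : l.Prime) (φ : harm0 n)
    (h : ∀ m : F[X], m.Monic → (l : ℤ) ∣ val (hecke n m (φ : GLK F → ℤ)) 2 (unif F)) :
    ∃ ψ : harm0 n, φ = (l : ℤ) • ψ := by
  have : Fact l.Prime := ⟨hl⟩
  have hl0 : (l : ℤ) ≠ 0 := by exact_mod_cast hl.ne_zero
  have hc := cusp_of_mem hCSP hn hi φ.2
  have h1 := zero_of_coeff hCORE hn hi h4 (ZMod l) (Int.castAddHom (ZMod l)) hc (fun m hm => by
    have := (ZMod.intCast_zmod_eq_zero_iff_dvd (val (hecke n m (φ : GLK F → ℤ)) 2 (unif F)) l).mpr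
      (h m hm)
    simpa using this)
  have h2 : ∀ g, (l : ℤ) ∣ (φ : GLK F → ℤ) g := fun g =>
    (ZMod.intCast_zmod_eq_zero_iff_dvd _ l).mp (by simpa using h1 g)
  choose ψ hψ using h2
  have hφ := φ.2
  obtain ⟨a1, a2, S, a3⟩ := hφ
  refine ⟨⟨ψ, ⟨fun g z k hz hk => ?_, fun g => ?_, fun g => ?_⟩, fun γ hγ g => ?_, S,
    fun g hg => ?_⟩, ?_⟩
  · have := a1.inv g z k hz hk
    rw [hψ, hψ] at this
    exact mul_left_cancel₀ hl0 this
  · have := a1.rev g
    rw [hψ, hψ, ← mul_neg] at this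
    exact mul_left_cancel₀ hl0 this
  · have := a1.sum g
    simp only [hψ] at this
    rw [← Finset.mul_sum, ← mul_add] at this
    exact (mul_eq_zero.mp this).resolve_left hl0
  · have := a2 γ hγ g
    rw [hψ, hψ] at this
    exact mul_left_cancel₀ hl0 this
  · refine a3 g ?_
    rw [hψ]
    exact mul_ne_zero hl0 hg
  · apply Subtype.ext
    funext g
    rw [hψ g]
    simp

theorem ppz (hCORE : COREStmt) (hALG : ALGStmt) (hFRE : FREStmt) (hCSP : CSPStmt)
    (hHST : HSTStmt) (_hHWD : HWDStmt) (hHMU : HMUStmt) (hFOU : FOUStmt) : PPZStmt := by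
  intro F _ _ n hn hi h4
  obtain ⟨hfin, hfree⟩ := hFRE F n hn hi
  have hst := fun (m : F[X]) (hm : m.Monic) => stable hCSP hHST hn hi hm
  refine ⟨fun m hm φ hφ => hst m hm φ hφ, ?_, ?_⟩
  · intro φ ψ hψ
    have hc := cusp_of_mem hCSP hn hi φ.2
    exact hFOU F n φ hc.harm hc.invt hc.rinf ψ hψ
  have hT : ∀ (m : F[X]) (hm : m.Monic), TT n hm (hst m hm) ∈ heckeZ n := fun m hm =>
    Algebra.subset_adjoin ⟨m, hm, fun φ => rfl⟩
  have hcomm : ∀ (m : F[X]) (hm : m.Monic), ∀ θ ∈ heckeZ n, ∀ φ : harm0 n,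
      TT n hm (hst m hm) (θ φ) = θ (TT n hm (hst m hm) φ) := by
    intro m hm θ hθ φ
    have hle : heckeZ n ≤ Subalgebra.centralizer ℤ {TT n hm (hst m hm)} := by
      refine Algebra.adjoin_le ?_
      rintro η ⟨m', hm', hη⟩
      rw [SetLike.mem_coe, Subalgebra.mem_centralizer_iff]
      intro _ hx
      rw [Set.mem_singleton_iff] at hx
      rw [hx]
      apply LinearMap.ext
      intro χ
      apply Subtype.ext
      change hecke n m ((η χ : harm0 n) : GLK F → ℤ) =
        ((η (TT n hm (hst m hm) χ) : harm0 n) : GLK F → ℤ)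
      rw [hη, hη]
      exact (hHMU F ℤ n hn χ χ.2.1 χ.2.2.1).1 m m' hm hm'
    have h1 := (Subalgebra.mem_centralizer_iff ℤ).mp (hle hθ) _ (Set.mem_singleton _)
    exact LinearMap.congr_fun h1 φ
  have hzero : ∀ φ : harm0 n, (∀ (m : F[X]) (hm : m.Monic),
      c1 n (TT n hm (hst m hm) φ) = 0) → φ = 0 := by
    intro φ h
    apply Subtype.ext
    refine eq_zero_of_coeff hCORE hn hi h4 (cusp_of_mem hCSP hn hi φ.2) (fun m hm => ?_)
    have := h m hm
    exact neg_eq_zero.mp this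
  have hinj : Function.Injective (pairZ n) := by
    rw [injective_iff_map_eq_zero]
    intro θ hθ
    apply Subtype.ext
    apply LinearMap.ext
    intro φ
    refine hzero _ (fun m hm => ?_)
    rw [hcomm m hm θ.1 θ.2 φ]
    exact LinearMap.congr_fun hθ (TT n hm (hst m hm) φ)
  have hspan : Submodule.span ℤ (Set.range (fun m : {m : F[X] // m.Monic} =>
      (c1 n).comp (TT n m.2 (hst m m.2)))) = ⊤ := by
    refine hALG (harm0 n) {m : F[X] // m.Monic}
      (fun m => (c1 n).comp (TT n m.2 (hst m m.2))) (fun l hl φ h => ?_)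
    refine div_of_coeff hCORE hCSP hn hi h4 l hl φ (fun m hm => ?_)
    have := h ⟨m, hm⟩
    exact (dvd_neg.mp this)
  have hsurj : Function.Surjective (pairZ n) := by
    rw [← LinearMap.range_eq_top, eq_top_iff, ← hspan, Submodule.span_le]
    rintro _ ⟨m, rfl⟩
    exact ⟨⟨TT n m.2 (hst m m.2), hT m m.2⟩, rfl⟩
  refine ⟨⟨hinj, hsurj⟩, ?_, ?_⟩
  · rw [injective_iff_map_eq_zero]
    intro φ hφ
    refine hzero φ (fun m hm => ?_)
    exact LinearMap.congr_fun hφ ⟨TT n hm (hst m hm), hT m hm⟩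
  · intro μ
    let e : heckeZ n ≃ₗ[ℤ] (harm0 n →ₗ[ℤ] ℤ) := LinearEquiv.ofBijective (pairZ n) ⟨hinj, hsurj⟩
    let ν : Module.Dual ℤ (Module.Dual ℤ (harm0 n)) := μ ∘ₗ e.symm.toLinearMap
    refine ⟨(Module.evalEquiv ℤ (harm0 n)).symm ν, ?_⟩
    apply LinearMap.ext
    intro θ
    have h1 : Module.Dual.eval ℤ (harm0 n) ((Module.evalEquiv ℤ (harm0 n)).symm ν) = ν := by
      have := (Module.evalEquiv ℤ (harm0 n)).apply_symm_apply ν
      exact this
    have h2 := LinearMap.congr_fun h1 (pairZ n θ)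
    have h3 : ν (pairZ n θ) = μ θ := by
      change μ (e.symm (e θ)) = μ θ
      rw [LinearEquiv.symm_apply_apply]
    rw [h3] at h2
    exact h2

end Pool.Agent.HK.H97
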