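import Pool.Agent.Helper8_HK.Stmt3
import Pool.Agent.Helper97_HK.PPZ

/-!
# Squad HK, module DFN: the pairing on Drinfeld modular forms is perfect
-/

set_option autoImplicit false
set_option linter.unusedSectionVars false

namespace Pool.Agent.HK.H97

open Polynomial Filter

variable {F : Type} [Field F] [Fintype F] {C : Type} [NormedField C]

theorem heckeC_sum (ι : Kinf F →+* C) (n : F[X]) {m : F[X]} (hm : m.Monic)
    (f : C → C) (z : C) :
    heckeC ι n m f z = ∑ x ∈ (hidx_finite n hm).toFinset, slash ι (hmat x) f z := by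
  unfold heckeC
  rw [finsum_mem_eq_finite_toFinset_sum _ (hidx_finite n hm)]

/-- The Hecke operator as an endomorphism. -/
noncomputable def TC (ι : Kinf F →+* C) (n : F[X]) {m : F[X]} (hm : m.Monic)
    (hst : ∀ f ∈ dcM ι n, heckeC ι n m f ∈ dcM ι n) : Module.End C (dcM ι n) where
  toFun f := ⟨heckeC ι n m (f : C → C), hst _ f.2⟩
  map_add' f g := by
    apply Subtype.ext
    funext z
    simp only [Submodule.coe_add, Pi.add_apply, heckeC_sum ι n hm, slash_add,
      Finset.sum_add_distrib]
  map_smul' c f := by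
    apply Subtype.ext
    funext z
    simp only [Submodule.coe_smul, Pi.smul_apply, heckeC_sum ι n hm, slash_smul,
      RingHom.id_apply, Finset.smul_sum]

theorem perfect_grp {k V W : Type} [Field k] [AddCommGroup V] [Module k V] [AddCommGroup W]
    [Module k W] [Module.Finite k V] [Module.Finite k W] (p : V →ₗ[k] W →ₗ[k] k)
    (h1 : ∀ v, p v = 0 → v = 0) (h2 : ∀ w, p.flip w = 0 → w = 0) :
    Function.Bijective p ∧ Function.Bijective p.flip := by
  let p' : V →ₗ[k] Module.Dual k W := p
  let q' : W →ₗ[k] Module.Dual k V := p.flip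
  have h1' : Function.Injective p' := (injective_iff_map_eq_zero p').2 h1
  have h2' : Function.Injective q' := (injective_iff_map_eq_zero q').2 h2
  have d1 : Module.finrank k V ≤ Module.finrank k W := by
    have := LinearMap.finrank_le_finrank_of_injective h1'
    rwa [Subspace.dual_finrank_eq] at this
  have d2 : Module.finrank k W ≤ Module.finrank k V := by
    have := LinearMap.finrank_le_finrank_of_injective h2'
    rwa [Subspace.dual_finrank_eq] at this
  have e1 : Module.finrank k V = Module.finrank k (Module.Dual k W) := by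
    rw [Subspace.dual_finrank_eq]; exact le_antisymm d1 d2
  have e2 : Module.finrank k W = Module.finrank k (Module.Dual k V) := by
    rw [Subspace.dual_finrank_eq]; exact le_antisymm d2 d1
  have s1 : Function.Surjective p' :=
    (LinearMap.injective_iff_surjective_of_finrank_eq_finrank e1).1 h1'
  have s2 : Function.Surjective q' :=
    (LinearMap.injective_iff_surjective_of_finrank_eq_finrank e2).1 h2'
  exact ⟨⟨h1', s1⟩, ⟨h2', s2⟩⟩

theorem perfect_mon {k V W : Type} [Field k] [AddCommMonoid V] [Module k V] [AddCommMonoid W]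
    [Module k W] [Module.Finite k V] [Module.Finite k W] (p : V →ₗ[k] W →ₗ[k] k)
    (h1 : ∀ v, p v = 0 → v = 0) (h2 : ∀ w, p.flip w = 0 → w = 0) :
    Function.Bijective p ∧ Function.Bijective p.flip := by
  letI : AddCommGroup V := Module.addCommMonoidToAddCommGroup k
  letI : AddCommGroup W := Module.addCommMonoidToAddCommGroup k
  exact perfect_grp p h1 h2

theorem finite_sub {k W : Type} [Field k] [AddCommMonoid W] [Module k W] [Module.Finite k W]
    (S : Subalgebra k (Module.End k W)) : Module.Finite k S := by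
  letI : AddCommGroup W := Module.addCommMonoidToAddCommGroup k
  exact Module.Finite.of_injective S.val.toLinearMap Subtype.val_injective

theorem exists_exp (ι : Kinf F →+* C) (n : F[X]) (f : C → C) (hf : IsDC ι n f)
    (hs : slash ι 1 f = f) (c : C) (hc : c ≠ 0) : ∃ a : ℕ → C, HasExp ι c 1 f a := by
  obtain ⟨a, -, -, h⟩ := hf.cusp 1
  have h10 : (1 : GLA F) 1 0 = 0 := by
    simp
  rw [if_pos (by rw [h10]; exact dvd_zero n), map_one, hs] at h
  obtain ⟨R, hR⟩ := h
  refine ⟨fun i => a i * c ^ i, R, fun z hz hi => ?_⟩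
  have h1 := hR z hz hi
  have h2 : (fun i : ℕ => a i * c ^ i * (c⁻¹ * tb ι 1 z) ^ i) =
      fun i : ℕ => a i * (1⁻¹ * tb ι 1 z) ^ i := by
    funext i
    rw [mul_assoc, ← mul_pow, mul_inv_cancel_left₀ hc, inv_one, one_mul]
  rw [h2]
  exact h1

theorem dfn (hMFD : MFDStmt) (hRKM : RKMStmt) (hUNQ : UNQStmt) (hSLA : SLAStmt) : DFNStmt := by
  intro F _ _ C _ _ _ _ ι hι n hn hi h4
  obtain ⟨hfin, hst, hcom⟩ := hMFD F C ι hι n hn hi
  refine ⟨hst, fun c hc => ?_⟩
  have hslash : ∀ f : dcM ι n, slash ι 1 (f : C → C) = f := fun f =>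
    ((hSLA F C ι hι).2 _ f.2.off).2.2.1
  have hex : ∀ f : dcM ι n, ∃ a : ℕ → C, HasExp ι c 1 (f : C → C) a := fun f =>
    exists_exp ι n f f.2 (hslash f) c hc
  choose a ha using hex
  have huniq : ∀ (f : dcM ι n) (a' : ℕ → C), HasExp ι c 1 (f : C → C) a' → a' = a f :=
    fun f a' h => hUNQ F C ι hι c 1 f a' (a f) hc one_ne_zero h (ha f)
  let b : dcM ι n →ₗ[C] C :=
    { toFun := fun f => a f (Fintype.card F)
      map_add' := fun f g => by
        rw [← huniq (f + g) (a f + a g) ((ha f).add (ha g))]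
        rfl
      map_smul' := fun d f => by
        rw [← huniq (d • f) (d • a f) ((ha f).smul d)]
        rfl }
  have hb : ∀ (f : dcM ι n) (a' : ℕ → C), HasExp ι c 1 (f : C → C) a' →
      b f = a' (Fintype.card F) := fun f a' h => by
    rw [huniq f a' h]
    rfl
  refine ⟨b, hb, ?_⟩
  have hT : ∀ (m : F[X]) (hm : m.Monic), TC ι n hm (hst m hm) ∈ heckeM ι n := fun m hm =>
    Algebra.subset_adjoin ⟨m, hm, fun φ => rfl⟩
  have hcomm : ∀ (m : F[X]) (hm : m.Monic), ∀ θ ∈ heckeM ι n, ∀ φ : dcM ι n,
      TC ι n hm (hst m hm) (θ φ) = θ (TC ι n hm (hst m hm) φ) := by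
    intro m hm θ hθ φ
    have hle : heckeM ι n ≤ Subalgebra.centralizer C {TC ι n hm (hst m hm)} := by
      refine Algebra.adjoin_le ?_
      rintro η ⟨m', hm', hη⟩
      rw [SetLike.mem_coe, Subalgebra.mem_centralizer_iff]
      intro _ hx
      rw [Set.mem_singleton_iff] at hx
      rw [hx]
      apply LinearMap.ext
      intro χ
      apply Subtype.ext
      change heckeC ι n m ((η χ : dcM ι n) : C → C) =
        ((η (TC ι n hm (hst m hm) χ) : dcM ι n) : C → C)
      rw [hη, hη]
      exact hcom m m' hm hm' χ χ.2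
    have h1 := (Subalgebra.mem_centralizer_iff C).mp (hle hθ) _ (Set.mem_singleton _)
    exact LinearMap.congr_fun h1 φ
  have hzero : ∀ φ : dcM ι n, (∀ (m : F[X]) (hm : m.Monic),
      b (TC ι n hm (hst m hm) φ) = 0) → φ = 0 := by
    intro φ h
    apply Subtype.ext
    refine hRKM F C ι hι n hn hi h4 c hc φ φ.2 (fun m a' hm ha' => ?_)
    rw [← hb (TC ι n hm (hst m hm) φ) a' ha']
    exact h m hm
  have hfin2 : Module.Finite C (heckeM ι n) := finite_sub (heckeM ι n)
  refine perfect_mon (pairM ι n b) (fun θ hθ => ?_) (fun φ hφ => ?_)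
  · apply Subtype.ext
    apply LinearMap.ext
    intro φ
    refine hzero _ (fun m hm => ?_)
    rw [hcomm m hm θ.1 θ.2 φ]
    exact LinearMap.congr_fun hθ (TC ι n hm (hst m hm) φ)
  · refine hzero φ (fun m hm => ?_)
    exact LinearMap.congr_fun hφ ⟨TC ι n hm (hst m hm), hT m hm⟩

end Pool.Agent.HK.H97
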